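import Pool.Agent.N71.PS.Tasks
import Pool.Agent.H38R2.CG.CC6
import Pool.Agent.H38R2.CG.NB

/-!
# PS/CC8 (helper702): boundedly many small f are bad
-/

set_option autoImplicit false

namespace Pool.Agent.N702.PS

open Finset Filter Pool.Agent.N71.PS
open scoped Classical Topology ComplexConjugate

/-- Bessel inequality, abstract form: `m` vectors with almost orthogonality -/
theorem bessel {ι α : Type*} (A : Finset ι) (P Q : Finset α) (hPQ : P ⊆ Q) (x : ι → α → ℂ)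
    (c N E : ℝ) (hN : 0 ≤ N) (hc : 0 ≤ c) (hE0 : 0 ≤ E)
    (hcN : (P.card : ℝ) ≤ N)
    (hbig : ∀ f ∈ A, c ≤ ‖∑ p ∈ P, x f p‖)
    (hone : ∀ f ∈ A, ∀ p ∈ Q, ‖x f p‖ ≤ 1)
    (horth : ∀ f ∈ A, ∀ g ∈ A, f ≠ g → ‖∑ p ∈ Q, x f p * conj (x g p)‖ ≤ E) :
    ((A.card : ℝ) * c) ^ 2 ≤ N * (A.card * Q.card + (A.card : ℝ) ^ 2 * E) := by
  -- unimodular coefficients
  have hz : ∀ f : ι, ∃ z : ℂ, ‖z‖ ≤ 1 ∧ z * ∑ p ∈ P, x f p = (‖∑ p ∈ P, x f p‖ : ℝ) := by
    intro f
    by_cases h0 : ∑ p ∈ P, x f p = 0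
    · exact ⟨0, by simp, by simp [h0]⟩
    · refine ⟨conj (∑ p ∈ P, x f p) / (‖∑ p ∈ P, x f p‖ : ℝ), ?_, ?_⟩
      · rw [norm_div, RCLike.norm_conj, Complex.norm_real, norm_norm]
        exact (div_self_le_one _)
      · have hn : ((‖∑ p ∈ P, x f p‖ : ℝ) : ℂ) ≠ 0 := by
          exact_mod_cast norm_ne_zero_iff.mpr h0
        rw [div_mul_eq_mul_div, div_eq_iff hn, mul_comm, Complex.mul_conj]
        rw [Complex.normSq_eq_norm_sq]
        push_cast
        ring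
  choose z hz1 hz2 using hz
  set T : α → ℂ := fun p => ∑ f ∈ A, z f * x f p with hT
  have h1 : ∑ f ∈ A, ‖∑ p ∈ P, x f p‖ ≤ ∑ p ∈ P, ‖T p‖ := by
    have h2 : ((∑ f ∈ A, ‖∑ p ∈ P, x f p‖ : ℝ) : ℂ) = ∑ p ∈ P, T p := by
      rw [hT, Finset.sum_comm]
      push_cast
      apply Finset.sum_congr rfl
      intro f _
      rw [← hz2 f, Finset.mul_sum]
    have h3 : ∑ f ∈ A, ‖∑ p ∈ P, x f p‖ = ‖∑ p ∈ P, T p‖ := by
      rw [← h2, Complex.norm_real, Real.norm_of_nonneg]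
      exact Finset.sum_nonneg fun _ _ => norm_nonneg _
    rw [h3]
    exact norm_sum_le _ _
  have h2 : (A.card : ℝ) * c ≤ ∑ p ∈ P, ‖T p‖ := by
    refine le_trans ?_ h1
    rw [← nsmul_eq_mul]
    exact Finset.card_nsmul_le_sum _ _ _ hbig
  have h3 : (∑ p ∈ P, ‖T p‖) ^ 2 ≤ P.card * ∑ p ∈ P, ‖T p‖ ^ 2 := sq_sum_le_card_mul_sum_sq
  have h4 : ∑ p ∈ P, ‖T p‖ ^ 2 ≤ ∑ p ∈ Q, ‖T p‖ ^ 2 :=
    Finset.sum_le_sum_of_subset_of_nonneg hPQ fun _ _ _ => by positivity
  have h5 : ∑ p ∈ Q, ‖T p‖ ^ 2 ≤ A.card * Q.card + (A.card : ℝ) ^ 2 * E := by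
    have h6 : ((∑ p ∈ Q, ‖T p‖ ^ 2 : ℝ) : ℂ) =
        ∑ f ∈ A, ∑ g ∈ A, z f * conj (z g) * ∑ p ∈ Q, x f p * conj (x g p) := by
      push_cast
      have h7 : ∀ p, ((‖T p‖ : ℂ)) ^ 2 = ∑ f ∈ A, ∑ g ∈ A, z f * conj (z g) *
          (x f p * conj (x g p)) := by
        intro p
        rw [← Complex.mul_conj' (T p)]
        rw [hT]
        simp only
        rw [map_sum, Finset.sum_mul_sum]
        apply Finset.sum_congr rfl
        intro f _
        apply Finset.sum_congr rfl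
        intro g _
        rw [map_mul]; ring
      simp_rw [h7]
      rw [Finset.sum_comm]
      apply Finset.sum_congr rfl
      intro f _
      rw [Finset.sum_comm]
      apply Finset.sum_congr rfl
      intro g _
      rw [Finset.mul_sum]
    have h8 : ∑ p ∈ Q, ‖T p‖ ^ 2 = ‖∑ f ∈ A, ∑ g ∈ A, z f * conj (z g) *
        ∑ p ∈ Q, x f p * conj (x g p)‖ := by
      rw [← h6, Complex.norm_real, Real.norm_of_nonneg]
      exact Finset.sum_nonneg fun _ _ => by positivity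
    rw [h8]
    have hE : ∀ f ∈ A, ∀ g ∈ A, ‖z f * conj (z g) * ∑ p ∈ Q, x f p * conj (x g p)‖ ≤
        if f = g then (Q.card : ℝ) else E := by
      intro f hf g hg
      have h9 : ‖z f * conj (z g)‖ ≤ 1 := by
        rw [norm_mul, RCLike.norm_conj]
        exact mul_le_one₀ (hz1 f) (norm_nonneg _) (hz1 g)
      rw [norm_mul]
      have h10 : ‖∑ p ∈ Q, x f p * conj (x g p)‖ ≤ if f = g then (Q.card : ℝ) else E := by
        split_ifs with hfg
        · subst hfg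
          refine (norm_sum_le _ _).trans ?_
          have : (Q.card : ℝ) = ∑ p ∈ Q, (1 : ℝ) := by simp
          rw [this]
          apply Finset.sum_le_sum
          intro p hp
          rw [norm_mul, RCLike.norm_conj]
          exact mul_le_one₀ (hone f hf p hp) (norm_nonneg _) (hone f hf p hp)
        · exact horth f hf g hg hfg
      calc ‖z f * conj (z g)‖ * ‖∑ p ∈ Q, x f p * conj (x g p)‖
          ≤ 1 * ‖∑ p ∈ Q, x f p * conj (x g p)‖ := by gcongr
        _ ≤ _ := by rw [one_mul]; exact h10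
    calc ‖∑ f ∈ A, ∑ g ∈ A, z f * conj (z g) * ∑ p ∈ Q, x f p * conj (x g p)‖
        ≤ ∑ f ∈ A, ∑ g ∈ A, ((if f = g then (Q.card : ℝ) else 0) + E) := by
          refine (norm_sum_le _ _).trans ?_
          apply Finset.sum_le_sum
          intro f hf
          refine (norm_sum_le _ _).trans ?_
          apply Finset.sum_le_sum
          intro g hg
          refine (hE f hf g hg).trans ?_
          split_ifs <;> linarith
      _ = A.card * Q.card + (A.card : ℝ) ^ 2 * E := by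
          simp_rw [Finset.sum_add_distrib]
          rw [Finset.sum_congr rfl (g := fun _ => (Q.card : ℝ))]
          · simp only [Finset.sum_const, nsmul_eq_mul]
            ring
          · intro f hf
            rw [Finset.sum_ite_eq A f, if_pos hf]
  have h0 : 0 ≤ (A.card : ℝ) * c := by positivity
  calc ((A.card : ℝ) * c) ^ 2 ≤ (∑ p ∈ P, ‖T p‖) ^ 2 := pow_le_pow_left₀ h0 h2 2
    _ ≤ P.card * ∑ p ∈ P, ‖T p‖ ^ 2 := h3
    _ ≤ P.card * (A.card * Q.card + (A.card : ℝ) ^ 2 * E) := by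
        gcongr
        exact h4.trans h5
    _ ≤ N * (A.card * Q.card + (A.card : ℝ) ^ 2 * E) := by
        gcongr

/-- the orthogonality relation for two different numbers -/
theorem orth (M f g y : ℕ) (hM : 1 ≤ M) (hf : 1 ≤ f) (hg : 1 ≤ g) (hsf : Squarefree f)
    (hsg : Squarefree g) (hcf : f.Coprime (2 * M)) (hcg : g.Coprime (2 * M)) (hne : f ≠ g)
    (ψ φ : DirichletCharacter ℂ M) (hy : M * (f * g) ≤ y) (hfy : f ≤ y) (hgy : g ≤ y) :
    ∃ (q : ℕ) (χ : DirichletCharacter ℂ q), 1 < q ∧ q ≤ M * (f * g) ∧ χ.IsPrimitive ∧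
      ∑ p ∈ Pool.Agent.H38R2.CG.PP y, (ψ (p : ZMod M) * ((jacobiSym (p : ℤ) f : ℤ) : ℂ)) *
        conj (φ (p : ZMod M) * ((jacobiSym (p : ℤ) g : ℤ) : ℂ)) =
      ∑ p ∈ Pool.Agent.H38R2.CG.PP y, χ (p : ZMod q) := by
  set d := Nat.gcd f g with hd
  have hd0 : 0 < d := Nat.gcd_pos_of_pos_left _ hf
  obtain ⟨f', hf'⟩ : d ∣ f := Nat.gcd_dvd_left f g
  obtain ⟨g', hg'⟩ : d ∣ g := Nat.gcd_dvd_right f g
  have hf'0 : 0 < f' := Nat.pos_of_ne_zero (by rintro rfl; simp at hf'; omega)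
  have hg'0 : 0 < g' := Nat.pos_of_ne_zero (by rintro rfl; simp at hg'; omega)
  have hcop : f'.Coprime g' := by
    have h := Nat.coprime_div_gcd_div_gcd (m := f) (n := g) (by rw [← hd]; exact hd0)
    rw [← hd] at h
    have e1 : f / d = f' := by rw [hf']; exact Nat.mul_div_cancel_left _ hd0
    have e2 : g / d = g' := by rw [hg']; exact Nat.mul_div_cancel_left _ hd0
    rwa [e1, e2] at h
  have hsf' : Squarefree f' := hsf.squarefree_of_dvd ⟨d, by rw [mul_comm]; exact hf'⟩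
  have hsg' : Squarefree g' := hsg.squarefree_of_dvd ⟨d, by rw [mul_comm]; exact hg'⟩
  have hsh : Squarefree (f' * g') := (Nat.squarefree_mul hcop).mpr ⟨hsf', hsg'⟩
  have hch : (f' * g').Coprime (2 * M) := by
    apply Nat.Coprime.mul_left
    · exact Nat.Coprime.coprime_dvd_left ⟨d, by rw [mul_comm]; exact hf'⟩ hcf
    · exact Nat.Coprime.coprime_dvd_left ⟨d, by rw [mul_comm]; exact hg'⟩ hcg
  have hh1 : f' * g' ≠ 1 := by
    intro h
    have h1 := Nat.eq_one_of_mul_eq_one_right h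
    have h2 := Nat.eq_one_of_mul_eq_one_left h
    apply hne
    rw [hf', hg', h1, h2]
  have hhle : f' * g' ≤ f * g := by
    rw [hf', hg']
    calc f' * g' = 1 * f' * (1 * g') := by ring
      _ ≤ d * f' * (d * g') := by gcongr <;> exact hd0
  obtain ⟨q, χ, hq1, hqle, hprim, hχ⟩ := Pool.Agent.H38R2.CG.CC6h.exists_char M (f' * g') hM
    (Nat.mul_pos hf'0 hg'0) hsh hch (ψ * φ⁻¹) (fun h => hh1 h.2)
  refine ⟨q, χ, hq1, hqle.trans (Nat.mul_le_mul_left M hhle), hprim, ?_⟩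
  apply Finset.sum_congr rfl
  intro p hp
  rw [Pool.Agent.H38R2.CG.PP, Finset.mem_filter, Finset.mem_Ioc] at hp
  obtain ⟨⟨hp1, hp2⟩, hpp⟩ := hp
  rw [hχ p hpp (by
    have := Nat.mul_le_mul_left M hhle
    omega)]
  rw [MulChar.mul_apply, map_mul, ← MulChar.star_apply' φ]
  have hconj : conj ((jacobiSym (p : ℤ) g : ℤ) : ℂ) = ((jacobiSym (p : ℤ) g : ℤ) : ℂ) :=
    map_intCast (starRingEnd ℂ) _
  rw [hconj]
  have : NeZero d := ⟨hd0.ne'⟩
  have : NeZero f' := ⟨hf'0.ne'⟩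
  have : NeZero g' := ⟨hg'0.ne'⟩
  have hJ : jacobiSym (p : ℤ) f * jacobiSym (p : ℤ) g = jacobiSym (p : ℤ) (f' * g') := by
    have e1 : jacobiSym (p : ℤ) f = jacobiSym (p : ℤ) d * jacobiSym (p : ℤ) f' := by
      conv_lhs => rw [hf']
      exact jacobiSym.mul_right _ _ _
    have e2 : jacobiSym (p : ℤ) g = jacobiSym (p : ℤ) d * jacobiSym (p : ℤ) g' := by
      conv_lhs => rw [hg']
      exact jacobiSym.mul_right _ _ _
    have e3 : jacobiSym (p : ℤ) (f' * g') = jacobiSym (p : ℤ) f' * jacobiSym (p : ℤ) g' :=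
      jacobiSym.mul_right _ _ _
    have e4 : jacobiSym (p : ℤ) d ^ 2 = 1 := by
      apply jacobiSym.sq_one
      rw [Int.gcd_natCast_natCast]
      apply (Nat.Prime.coprime_iff_not_dvd hpp).mpr
      intro hdv
      have h1 := Nat.le_of_dvd hd0 hdv
      have h2 : d ≤ f := Nat.le_of_dvd hf ⟨f', hf'⟩
      omega
    rw [e1, e2, e3]
    linear_combination (jacobiSym (p : ℤ) f' * jacobiSym (p : ℤ) g') * e4
  rw [← hJ]
  push_cast
  simp only [RCLike.star_def]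
  ring

variable [N71.PS.PSet]

theorem T_CC8 (hSW : S_SW) (hNB : N71.PS.P_NB) : N71.PS.P_CC8 := by
  intro M hM
  obtain ⟨δ, hδ, hδ1, y1, hy1⟩ := hNB
  obtain ⟨y2, hy2⟩ := hSW 7 (δ / 8) (by positivity)
  obtain ⟨y3, hy3⟩ := Pool.Agent.H38R2.CG.T_NB.2
  have e1 : ∀ᶠ y : ℕ in Filter.atTop, (M : ℝ) + 20 ≤ Real.log y :=
    (Real.tendsto_log_atTop.comp tendsto_natCast_atTop_atTop).eventually_ge_atTop _
  have e2 : ∀ᶠ y : ℕ in Filter.atTop, (Real.log y) ^ 7 < (y : ℝ) := by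
    have h := (Real.isLittleO_pow_log_id_atTop (n := 7)).bound (show (0 : ℝ) < 1 / 2 by norm_num)
    have h' := tendsto_natCast_atTop_atTop (R := ℝ) |>.eventually h
    filter_upwards [h', Filter.eventually_ge_atTop 1] with y hy hy1
    have hy0 : (0 : ℝ) < y := by exact_mod_cast hy1
    simp only [id, Real.norm_eq_abs, abs_of_pos hy0] at hy
    have := le_abs_self ((Real.log y) ^ 7)
    linarith
  obtain ⟨y4, hy4⟩ := Filter.eventually_atTop.mp (e1.and e2)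
  refine ⟨9 / δ, by positivity, max (max y1 y2) (max (max y3 y4) 1), ?_⟩
  intro y hy
  have hyy1 : y1 ≤ y := ((le_max_left _ _).trans (le_max_left _ _)).trans hy
  have hyy2 : y2 ≤ y := ((le_max_right _ _).trans (le_max_left _ _)).trans hy
  have hyy3 : y3 ≤ y := (((le_max_left _ _).trans (le_max_left _ _)).trans
    (le_max_right _ _)).trans hy
  have hyy4 : y4 ≤ y := (((le_max_right _ _).trans (le_max_left _ _)).trans
    (le_max_right _ _)).trans hy
  have hyy5 : 1 ≤ y := ((le_max_right _ _).trans (le_max_right _ _)).trans hy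
  obtain ⟨hL, hLy⟩ := hy4 y hyy4
  have hy0 : (0 : ℝ) < y := by exact_mod_cast hyy5
  set A := (Finset.Icc 1 ⌊(Real.log y) ^ 3⌋₊).filter
    (fun f => Squarefree f ∧ f.Coprime (2 * M) ∧ N71.PS.BadF (1 / 2) M y f) with hA
  have hM0 : (0 : ℝ) ≤ M := by positivity
  have hL20 : 20 ≤ Real.log y := by linarith
  have hL0 : 0 < Real.log y := by linarith
  have hML : (M : ℝ) ≤ Real.log y := by linarith
  have hA1 : ∀ f ∈ A, 1 ≤ f ∧ (f : ℝ) ≤ (Real.log y) ^ 3 ∧ Squarefree f ∧ f.Coprime (2 * M) ∧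
      N71.PS.BadF (1 / 2) M y f := by
    intro f hf
    rw [hA, Finset.mem_filter, Finset.mem_Icc] at hf
    exact ⟨hf.1.1, (Nat.le_floor_iff (by positivity)).mp hf.1.2, hf.2⟩
  have hψ : ∀ f : ℕ, ∃ ψ : DirichletCharacter ℂ M, f ∈ A →
      (1 / 2 : ℝ) * (N71.PS.PP y).card <
        ‖∑ p ∈ N71.PS.PP y, ψ (p : ZMod M) * ((jacobiSym (p : ℤ) f : ℤ) : ℂ)‖ := by
    intro f
    by_cases hf : f ∈ A
    · obtain ⟨_, _, _, _, ψ, _, h⟩ := hA1 f hf
      exact ⟨ψ, fun _ => h⟩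
    · exact ⟨1, fun h => absurd h hf⟩
  choose ψ hψ using hψ
  set Y : ℝ := y / Real.log y with hY
  have hY0 : 0 < Y := by positivity
  obtain ⟨hN1, hN2⟩ := hy1 y hyy1
  obtain ⟨hQ1, hQ2⟩ := hy3 y hyy3
  have hN1' : δ * Y ≤ (N71.PS.PP y).card := by rw [hY, ← mul_div_assoc]; exact hN1
  have hN2' : ((N71.PS.PP y).card : ℝ) ≤ 11 / 10 * Y := by rw [hY, ← mul_div_assoc]; exact hN2
  have hQ2' : ((Pool.Agent.H38R2.CG.PP y).card : ℝ) ≤ 11 / 10 * Y := by
    rw [hY, ← mul_div_assoc]; exact hQ2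
  have hE : 0 ≤ δ / 8 * Y := by positivity
  have hpow3 : (Real.log y) ^ 3 ≤ (y : ℝ) := by
    have : (Real.log y) ^ 3 ≤ (Real.log y) ^ 7 := pow_le_pow_right₀ (by linarith) (by norm_num)
    linarith
  have hb := bessel A (N71.PS.PP y) (Pool.Agent.H38R2.CG.PP y) (N71.PS.PP_sub_old y)
    (fun f p => ψ f (p : ZMod M) * ((jacobiSym (p : ℤ) f : ℤ) : ℂ))
    (1 / 2 * (N71.PS.PP y).card) (N71.PS.PP y).card (δ / 8 * Y) (by positivity) (by positivity)
    hE le_rfl (fun f hf => (hψ f hf).le) ?_ ?_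
  · -- conclusion
    set N : ℝ := ((N71.PS.PP y).card : ℝ) with hN
    have hN0 : 0 < N := lt_of_lt_of_le (by positivity) hN1'
    set m : ℝ := (A.card : ℝ) with hm
    have hm0 : 0 ≤ m := by positivity
    rcases hm0.eq_or_lt with h0 | h0
    · rw [← h0]; positivity
    have h1 : (m * (1 / 2 * N)) ^ 2 ≤ N * (m * (11 / 10 * Y) + m ^ 2 * (δ / 8 * Y)) := by
      refine hb.trans ?_
      gcongr
    have h2 : m * N / 4 ≤ 11 / 10 * Y + m * (δ / 8 * Y) := by
      have h3 : (m * N) * (m * N / 4) ≤ (m * N) * (11 / 10 * Y + m * (δ / 8 * Y)) := by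
        nlinarith
      exact le_of_mul_le_mul_left h3 (by positivity)
    have h4 : m * (δ * Y) / 4 ≤ 11 / 10 * Y + m * (δ / 8 * Y) := by
      refine le_trans ?_ h2
      gcongr
    have h5 : m * δ / 8 ≤ 11 / 10 := by
      have h6 : Y * (m * δ / 8) ≤ Y * (11 / 10) := by nlinarith
      exact le_of_mul_le_mul_left h6 hY0
    rw [le_div_iff₀ hδ]
    linarith
  · intro f _ p _
    rw [norm_mul]
    apply mul_le_one₀ (DirichletCharacter.norm_le_one _ _) (norm_nonneg _)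
    rcases jacobiSym.trichotomy (p : ℤ) f with h | h | h <;> simp [h]
  · intro f hf g hg hne
    obtain ⟨hf1, hf2, hf3, hf4, _⟩ := hA1 f hf
    obtain ⟨hg1, hg2, hg3, hg4, _⟩ := hA1 g hg
    have hbound : ((M * (f * g) : ℕ) : ℝ) ≤ (Real.log y) ^ 7 := by
      push_cast
      calc (M : ℝ) * (f * g) ≤ Real.log y * ((Real.log y) ^ 3 * (Real.log y) ^ 3) := by
            gcongr
        _ = (Real.log y) ^ 7 := by ring
    have hb1 : M * (f * g) ≤ y := by
      have : ((M * (f * g) : ℕ) : ℝ) ≤ y := hbound.trans hLy.le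
      exact_mod_cast this
    have hb2 : f ≤ y := by exact_mod_cast hf2.trans hpow3
    have hb3 : g ≤ y := by exact_mod_cast hg2.trans hpow3
    obtain ⟨q, χ, hq1, hq2, hprim, hsum⟩ := orth M f g y hM hf1 hg1 hf3 hg3 hf4 hg4 hne
      (ψ f) (ψ g) hb1 hb2 hb3
    rw [hsum]
    have hq3 : (q : ℝ) ≤ (Real.log y) ^ 7 := by
      have : (q : ℝ) ≤ ((M * (f * g) : ℕ) : ℝ) := by exact_mod_cast hq2
      linarith
    have := hy2 y hyy2 q hq1 hq3 χ hprim
    rw [hY, ← mul_div_assoc]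
    exact this

end Pool.Agent.N702.PS
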